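import Pool.Agent.Helper18.PB.Defs

set_option autoImplicit false

namespace Pool.Agent.Helper56.PB

open Pool.Agent.Helper18.PB

universe u

/-- recursive construction of a sequence with an invariant and a relation between successive
terms -/
theorem exists_seq {α : Type*} (P : ℕ → α → Prop) (R : ℕ → α → α → Prop) (h0 : ∃ a, P 0 a)
    (step : ∀ i a, P i a → ∃ b, P (i + 1) b ∧ R i a b) :
    ∃ s : ℕ → α, ∀ i, P i (s i) ∧ R i (s i) (s (i + 1)) := by
  classical
  choose! nx hnx using step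
  obtain ⟨a0, ha0⟩ := h0
  let s : ℕ → α := fun n => Nat.rec a0 (fun i a => nx i a) n
  have hs : ∀ i, s (i + 1) = nx i (s i) := fun i => rfl
  have hP : ∀ i, P i (s i) := by
    intro i
    induction i with
    | zero => exact ha0
    | succ i ih => rw [hs]; exact (hnx i _ ih).1
  exact ⟨s, fun i => ⟨hP i, by rw [hs]; exact (hnx i _ (hP i)).2⟩⟩

theorem abs_apply_le {X : Type u} [NormedAddCommGroup X] [NormedSpace ℝ X] (w : X →L[ℝ] ℝ)
    {η : ℝ} (hw : ‖w‖ ≤ η) (z : X) : |w z| ≤ η * ‖z‖ := by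
  have h := w.le_opNorm z
  rw [Real.norm_eq_abs] at h
  exact h.trans (mul_le_mul_of_nonneg_right hw (norm_nonneg z))

/-- A convex combination of two functionals of norm at most `η`. -/
theorem exists_comb {X : Type u} [NormedAddCommGroup X] [NormedSpace ℝ X]
    (g w w' : X →L[ℝ] ℝ) {η a b : ℝ} (hw : ‖w‖ ≤ η) (hw' : ‖w'‖ ≤ η) (ha : 0 < a) (hb : 0 < b) :
    ∃ w'' : X →L[ℝ] ℝ, ‖w''‖ ≤ η ∧ (a + b) • (g - w'') = a • (g - w) + b • (g - w') := by
  have hab : 0 < a + b := by linarith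
  refine ⟨(a / (a + b)) • w + (b / (a + b)) • w', ?_, ?_⟩
  · calc ‖(a / (a + b)) • w + (b / (a + b)) • w'‖
        ≤ ‖(a / (a + b)) • w‖ + ‖(b / (a + b)) • w'‖ := norm_add_le _ _
      _ = (a / (a + b)) * ‖w‖ + (b / (a + b)) * ‖w'‖ := by
          rw [norm_smul, norm_smul, Real.norm_eq_abs, Real.norm_eq_abs,
            abs_of_pos (div_pos ha hab), abs_of_pos (div_pos hb hab)]
      _ ≤ (a / (a + b)) * η + (b / (a + b)) * η := by
          gcongr
      _ = η := by field_simp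
  · ext z
    simp only [ContinuousLinearMap.add_apply, ContinuousLinearMap.smul_apply,
      ContinuousLinearMap.sub_apply, smul_eq_mul]
    field_simp
    ring

theorem a2 : GA.{u} → GB.{u} := by
  intro hGA X _ _ _ f g x e θ η N hx he hθ hη hN hyp
  have hN0 : (0 : ℝ) < N := by exact_mod_cast hN
  set β : ℝ := θ / (8 * N) with hβdef
  have hβ : 0 < β := by positivity
  have hNβ : N * β = θ / 8 := by rw [hβdef]; field_simp
  -- step 0
  obtain ⟨x1, ωt, hx1, hωt, hstep0, hmax0⟩ := hGA X (f + (θ / 8) • g) (θ * η / 8) x (by positivity) hx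
  have hω1 : ‖(8 / θ) • ωt‖ ≤ η := by
    rw [norm_smul, Real.norm_eq_abs, abs_of_pos (by positivity)]
    calc 8 / θ * ‖ωt‖ ≤ 8 / θ * (θ * η / 8) := by gcongr
      _ = η := by field_simp
  have h0 := hyp x1 hx1
  have hg1 : g (x1 - x) ≤ |g (x1 - x)| := le_abs_self _
  simp only [ContinuousLinearMap.add_apply, ContinuousLinearMap.smul_apply, smul_eq_mul]
    at hstep0
  have hA : θ * η / 8 * ‖x1 - x‖ ≤ e - 7 * θ / 8 * |g (x1 - x)| := by
    nlinarith
  have hn1 : 0 ≤ ‖x1 - x‖ := norm_nonneg _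
  have hA1 : θ * (η * ‖x1 - x‖) ≤ 8 * e := by
    have : 0 ≤ 7 * θ / 8 * |g (x1 - x)| := by positivity
    nlinarith
  have hA2 : θ * |g (x1 - x)| ≤ 8 * e / 7 := by
    have : 0 ≤ θ * η / 8 * ‖x1 - x‖ := by positivity
    nlinarith
  -- recursion
  let P : ℕ → X × (X →L[ℝ] ℝ) × (X →L[ℝ] ℝ) → Prop := fun i a =>
    ‖a.1‖ ≤ 1 ∧ ‖a.2.1‖ ≤ η ∧
      (∀ y : X, ‖y‖ ≤ 1 → (f + (θ / 8 + i * β) • (g - a.2.1)) (y - a.1) ≤ 0) ∧
      η * ‖a.1 - x1‖ ≤ g (a.1 - x1)
  let R : ℕ → X × (X →L[ℝ] ℝ) × (X →L[ℝ] ℝ) → X × (X →L[ℝ] ℝ) × (X →L[ℝ] ℝ) → Prop :=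
    fun i a b => ‖b.2.2‖ ≤ η ∧ η * ‖b.1 - a.1‖ ≤ g (b.1 - a.1) ∧
      (∀ y : X, ‖y‖ ≤ 1 →
        (f + (θ / 8 + i * β) • (g - a.2.1) + β • (g - b.2.2)) (y - b.1) ≤ 0)
  obtain ⟨s, hs⟩ := exists_seq P R ⟨(x1, (8 / θ) • ωt, 0), by
      refine ⟨hx1, hω1, ?_, by simp⟩
      intro y hy
      have := hmax0 y hy
      simp only [ContinuousLinearMap.add_apply, ContinuousLinearMap.smul_apply,
        ContinuousLinearMap.sub_apply, smul_eq_mul, Nat.cast_zero, zero_mul, add_zero] at this ⊢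
      have e1 : θ / 8 * (g (y - x1) - 8 / θ * ωt (y - x1)) =
          θ / 8 * g (y - x1) - ωt (y - x1) := by field_simp
      rw [e1]; linarith⟩ (by
      rintro i ⟨xa, wa, oa⟩ ⟨hxa, hwa, hma, hga⟩
      simp only at hxa hwa hma hga
      have ht : 0 < θ / 8 + i * β := by positivity
      obtain ⟨xb, ωb, hxb, hωb, hstb, hmb⟩ := hGA X
        (f + (θ / 8 + i * β) • (g - wa) + β • g) (β * η) xa (by positivity) hxa
      have hωb' : ‖(1 / β) • ωb‖ ≤ η := by
        rw [norm_smul, Real.norm_eq_abs, abs_of_pos (by positivity)]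
        calc 1 / β * ‖ωb‖ ≤ 1 / β * (β * η) := by gcongr
          _ = η := by field_simp
      have hgab : η * ‖xb - xa‖ ≤ g (xb - xa) := by
        have h1 := hma xb hxb
        have h2 : (f + (θ / 8 + i * β) • (g - wa) + β • g) (xb - xa) =
            (f + (θ / 8 + i * β) • (g - wa)) (xb - xa) + β * g (xb - xa) := by
          simp only [ContinuousLinearMap.add_apply, ContinuousLinearMap.smul_apply, smul_eq_mul]
        rw [h2] at hstb
        have h3 : β * (η * ‖xb - xa‖) ≤ β * g (xb - xa) := by linarith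
        exact le_of_mul_le_mul_left h3 hβ
      have hmb' : ∀ y : X, ‖y‖ ≤ 1 →
          (f + (θ / 8 + i * β) • (g - wa) + β • (g - (1 / β) • ωb)) (y - xb) ≤ 0 := by
        intro y hy
        have h1 := hmb y hy
        have h2 : (f + (θ / 8 + i * β) • (g - wa) + β • (g - (1 / β) • ωb)) (y - xb) =
            (f + (θ / 8 + i * β) • (g - wa) + β • g - ωb) (y - xb) := by
          simp only [ContinuousLinearMap.add_apply, ContinuousLinearMap.smul_apply,
            ContinuousLinearMap.sub_apply, smul_eq_mul]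
          field_simp
          ring
        rw [h2]; exact h1
      obtain ⟨w'', hw'', hcomb⟩ := exists_comb g wa ((1 / β) • ωb) hwa hωb' ht hβ
      refine ⟨(xb, w'', (1 / β) • ωb), ⟨hxb, hw'', ?_, ?_⟩, hωb', hgab, hmb'⟩
      · intro y hy
        have h1 := hmb' y hy
        have h2 : θ / 8 + ((i + 1 : ℕ) : ℝ) * β = (θ / 8 + i * β) + β := by push_cast; ring
        simp only
        rw [h2, hcomb, ← add_assoc]
        exact h1
      · simp only
        have h1 : xb - x1 = (xb - xa) + (xa - x1) := by abel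
        rw [h1, map_add]
        have h2 := norm_add_le (xb - xa) (xa - x1)
        nlinarith)
  -- bounds
  have hti : ∀ i : ℕ, i ≤ N → θ / 8 + i * β ≤ θ / 4 := by
    intro i hi
    have h1 : (i : ℝ) ≤ N := by exact_mod_cast hi
    nlinarith
  have key : ∀ i : ℕ, i ≤ N → θ * |g ((s i).1 - x)| ≤ 46 * e / 7 ∧
      θ * (η * ‖(s i).1 - x‖) ≤ 17 * e := by
    intro i hi
    obtain ⟨⟨h1, h2, h3, h4⟩, -⟩ := hs i
    have ht0 : 0 < θ / 8 + i * β := by positivity
    have ht1 := hti i hi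
    have h5 := h3 x hx
    have h6 := hyp _ h1
    have h7 := abs_apply_le _ h2 ((s i).1 - x)
    have h8 : (f + (θ / 8 + i * β) • (g - (s i).2.1)) (x - (s i).1) =
        -(f ((s i).1 - x) + (θ / 8 + i * β) * (g ((s i).1 - x) - (s i).2.1 ((s i).1 - x))) := by
      have : x - (s i).1 = -((s i).1 - x) := by abel
      rw [this, map_neg]
      simp only [ContinuousLinearMap.add_apply, ContinuousLinearMap.smul_apply,
        ContinuousLinearMap.sub_apply, smul_eq_mul]
    rw [h8] at h5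
    set a := |g ((s i).1 - x)| with ha
    set b := η * ‖(s i).1 - x‖ with hb
    have ha0 : 0 ≤ a := abs_nonneg _
    have hb0 : 0 ≤ b := by positivity
    have h9 : g ((s i).1 - x) ≤ a := le_abs_self _
    have h10 : -(s i).2.1 ((s i).1 - x) ≤ b := (neg_le_abs _).trans h7
    have h11 : (θ / 8 + i * β) * (g ((s i).1 - x) - (s i).2.1 ((s i).1 - x)) ≤
        θ / 4 * (a + b) := by
      calc (θ / 8 + i * β) * (g ((s i).1 - x) - (s i).2.1 ((s i).1 - x))
          ≤ (θ / 8 + i * β) * (a + b) := by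
            apply mul_le_mul_of_nonneg_left _ ht0.le
            linarith
        _ ≤ θ / 4 * (a + b) := by
            apply mul_le_mul_of_nonneg_right ht1
            linarith
    have h12 : θ * a ≤ e + θ / 4 * (a + b) := by linarith
    have h13 : b ≤ a + |g (x1 - x)| + η * ‖x1 - x‖ := by
      have e1 : (s i).1 - x = ((s i).1 - x1) + (x1 - x) := by abel
      have e2 : ‖(s i).1 - x‖ ≤ ‖(s i).1 - x1‖ + ‖x1 - x‖ := by
        rw [e1]; exact norm_add_le _ _
      have e3 : b ≤ η * ‖(s i).1 - x1‖ + η * ‖x1 - x‖ := by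
        rw [hb, ← mul_add]; exact mul_le_mul_of_nonneg_left e2 hη.le
      have e4 : g ((s i).1 - x1) = g ((s i).1 - x) - g (x1 - x) := by
        rw [← map_sub]; congr 1; abel
      have e5 : -g (x1 - x) ≤ |g (x1 - x)| := neg_le_abs _
      linarith
    have h14 : θ * b ≤ θ * a + 8 * e / 7 + 8 * e := by
      have := mul_le_mul_of_nonneg_left h13 hθ.le
      nlinarith
    constructor
    · nlinarith
    · nlinarith
  -- pigeonhole
  have hgain : θ * g ((s N).1 - (s 0).1) ≤ 8 * e := by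
    obtain ⟨h1, -⟩ := key N le_rfl
    have h2 : g ((s N).1 - (s 0).1) = g ((s N).1 - x) - g (x1 - x) - g ((s 0).1 - x1) := by
      rw [← map_sub, ← map_sub]; congr 1; abel
    have h3 : 0 ≤ g ((s 0).1 - x1) := by
      have := (hs 0).1.2.2.2
      have h4 : 0 ≤ η * ‖(s 0).1 - x1‖ := by positivity
      linarith
    have h5 : g ((s N).1 - x) ≤ |g ((s N).1 - x)| := le_abs_self _
    have h6 : -g (x1 - x) ≤ |g (x1 - x)| := neg_le_abs _
    have h7 : g ((s N).1 - (s 0).1) ≤ |g ((s N).1 - x)| + |g (x1 - x)| := by linarith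
    have h8 := mul_le_mul_of_nonneg_left h7 hθ.le
    nlinarith
  have hsum : ∑ i ∈ Finset.range N, g ((s (i + 1)).1 - (s i).1) = g ((s N).1 - (s 0).1) := by
    have h1 := Finset.sum_range_sub (fun i => g ((s i).1)) N
    rw [map_sub, ← h1]
    apply Finset.sum_congr rfl
    intro i _
    rw [map_sub]
  obtain ⟨i, hiN, hi⟩ : ∃ i ∈ Finset.range N,
      g ((s (i + 1)).1 - (s i).1) ≤ 8 * e / (θ * N) := by
    apply Finset.exists_le_of_sum_le (Finset.nonempty_range_iff.mpr (by omega))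
    rw [hsum, Finset.sum_const, Finset.card_range, nsmul_eq_mul]
    have h1 : (N : ℝ) * (8 * e / (θ * N)) = 8 * e / θ := by field_simp
    rw [h1, le_div_iff₀ hθ]
    linarith
  rw [Finset.mem_range] at hiN
  obtain ⟨⟨hxi, hwi, hmi, -⟩, hoi, hgi, hmi'⟩ := hs i
  have hxi1 : ‖(s (i + 1)).1‖ ≤ 1 := (hs (i + 1)).1.1
  have ht0 : 0 < θ / 8 + i * β := by positivity
  obtain ⟨ω, hω, hcomb⟩ := exists_comb g (s i).2.1 (s (i + 1)).2.2 hwi hoi ht0 (half_pos hβ)
  have hiN' : ((i : ℝ) + 1) ≤ N := by exact_mod_cast hiN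
  refine ⟨g - (s (i + 1)).2.2, ω, (s i).1, (θ / 8 + i * β) + β / 2, hxi, by positivity, ?_, hω,
    ?_, ?_, ?_⟩
  · nlinarith
  · have : g - (s (i + 1)).2.2 - g = -(s (i + 1)).2.2 := by abel
    rw [this, norm_neg]; exact hoi
  · have := (key i hiN.le).2
    linarith
  · intro y hy
    rw [hcomb]
    set g' := g - (s (i + 1)).2.2 with hg'
    set fi := f + (θ / 8 + i * β) • (g - (s i).2.1) with hfi
    have hF : (f + ((θ / 8 + ↑i * β) • (g - (s i).2.1) + (β / 2) • g')) (y - (s i).1) =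
        fi (y - (s i).1) + β / 2 * g' (y - (s i).1) := by
      rw [← add_assoc, ← hfi]
      simp only [ContinuousLinearMap.add_apply, ContinuousLinearMap.smul_apply, smul_eq_mul]
    rw [hF]
    have h1 : fi (y - (s i).1) ≤ 0 := hmi y hy
    have h2 : (fi + β • g') (y - (s (i + 1)).1) ≤ 0 := hmi' y hy
    have h3 : fi ((s (i + 1)).1 - (s i).1) ≤ 0 := hmi _ hxi1
    have h4 : (fi + β • g') (y - (s (i + 1)).1) =
        fi (y - (s i).1) + β * g' (y - (s i).1) - fi ((s (i + 1)).1 - (s i).1)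
          - β * g' ((s (i + 1)).1 - (s i).1) := by
      simp only [ContinuousLinearMap.add_apply, ContinuousLinearMap.smul_apply, smul_eq_mul,
        map_sub]
      ring
    rw [h4] at h2
    have h5 : g' ((s (i + 1)).1 - (s i).1) ≤ 2 * (8 * e / (θ * N)) := by
      have e1 := abs_apply_le _ hoi ((s (i + 1)).1 - (s i).1)
      have e2 : g' ((s (i + 1)).1 - (s i).1) = g ((s (i + 1)).1 - (s i).1)
          - (s (i + 1)).2.2 ((s (i + 1)).1 - (s i).1) := by
        rw [hg', ContinuousLinearMap.sub_apply]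
      have e3 := neg_le_abs ((s (i + 1)).2.2 ((s (i + 1)).1 - (s i).1))
      linarith
    have h6 : β * g' ((s (i + 1)).1 - (s i).1) ≤ 2 * e / (N : ℝ) ^ 2 := by
      calc β * g' ((s (i + 1)).1 - (s i).1) ≤ β * (2 * (8 * e / (θ * N))) :=
            mul_le_mul_of_nonneg_left h5 hβ.le
        _ = 2 * e / (N : ℝ) ^ 2 := by rw [hβdef]; field_simp
    have h7 : 2 * e / (N : ℝ) ^ 2 ≤ 3 * e / (N : ℝ) ^ 2 := by
      apply div_le_div_of_nonneg_right _ (by positivity)
      linarith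
    have h8 : 0 ≤ 3 * e / (N : ℝ) ^ 2 := by positivity
    have h9 : θ / (16 * N) = β / 2 := by rw [hβdef]; field_simp; ring
    rw [h9]
    rcases le_total 0 (g' (y - (s i).1)) with h | h
    · rw [abs_of_nonneg h]; linarith
    · rw [abs_of_nonpos h]; linarith

end Pool.Agent.Helper56.PB
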