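import Pool.Agent.Helper76.PB.GoalsF

/-!
Packet PB-XUNL (MP_fc6b1e_nt).
-/

set_option autoImplicit false

namespace Pool.Agent.Helper56.PB

open NumberField Module IsDedekindDomain
open Pool.Agent.Helper51.RP

/-- In a finitely generated abelian group with an element of order `p` there are `p ^ (rank + 1)`
elements incongruent modulo `p`. -/
theorem fg_family (p : ℕ) [hp : Fact p.Prime] (A : Type) [AddCommGroup A] [Module.Finite ℤ A]
    (ε : A) (hε : (p : ℤ) • ε = 0) (hε0 : ε ≠ 0) :
    ∃ w : (Fin (finrank ℤ A) → Fin p) × Fin p → A,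
      ∀ s s', (∃ z : A, w s - w s' = (p : ℤ) • z) → s = s' := by
  have hp0 : (p : ℤ) ≠ 0 := by exact_mod_cast hp.out.ne_zero
  have hN : IsNoetherian ℤ A := inferInstance
  -- a torsion element which is not divisible
  obtain ⟨g, hgT, hg⟩ : ∃ g ∈ Submodule.torsion ℤ A,
      ¬ ∃ z ∈ Submodule.torsion ℤ A, g = (p : ℤ) • z := by
    by_contra hcon
    push Not at hcon
    have hle : Submodule.torsion ℤ A ≤ Ideal.span {(p : ℤ)} • Submodule.torsion ℤ A := by
      intro g hg
      obtain ⟨z, hz, rfl⟩ := hcon g hg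
      exact Submodule.smul_mem_smul (Ideal.mem_span_singleton_self _) hz
    obtain ⟨r, hr1, hr2⟩ := Submodule.exists_sub_one_mem_and_smul_eq_zero_of_fg_of_le_smul _ _
      (IsNoetherian.noetherian (Submodule.torsion ℤ A)) hle
    have hεT : ε ∈ Submodule.torsion ℤ A := by
      rw [Submodule.mem_torsion_iff]
      exact ⟨⟨(p : ℤ), mem_nonZeroDivisors_of_ne_zero hp0⟩, hε⟩
    obtain ⟨k, hk⟩ := Ideal.mem_span_singleton.1 hr1
    have h1 := hr2 ε hεT
    have h2 : r = 1 + k * p := by linarith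
    rw [h2, add_smul, one_smul, mul_smul, hε, smul_zero, add_zero] at h1
    exact hε0 h1
  -- the free quotient
  have htor : finrank ℤ (Submodule.torsion ℤ A) = 0 := by
    rw [Module.finrank_eq_zero_iff_isTorsion]
    intro x
    obtain ⟨a, ha⟩ := (Submodule.mem_torsion_iff _).1 x.2
    exact ⟨a, Subtype.ext ha⟩
  have hrk : finrank ℤ (A ⧸ Submodule.torsion ℤ A) = finrank ℤ A := by
    have := Submodule.finrank_quotient_add_finrank (Submodule.torsion ℤ A)
    omega
  let b : Basis (Fin (finrank ℤ A)) ℤ (A ⧸ Submodule.torsion ℤ A) :=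
    (Module.finBasis ℤ (A ⧸ Submodule.torsion ℤ A)).reindex (finCongr hrk)
  choose a ha using fun i => Submodule.Quotient.mk_surjective (Submodule.torsion ℤ A) (b i)
  refine ⟨fun s => ∑ i, (((s.1 i : Fin p) : ℕ) : ℤ) • a i + (((s.2 : Fin p) : ℕ) : ℤ) • g, ?_⟩
  rintro ⟨n, m⟩ ⟨n', m'⟩ ⟨z, hz⟩
  simp only at hz
  have hmkg : (Submodule.torsion ℤ A).mkQ g = 0 := by
    rw [Submodule.mkQ_apply]
    exact (Submodule.Quotient.mk_eq_zero _).2 hgT
  have hmk : ∀ i, (Submodule.torsion ℤ A).mkQ (a i) = b i := fun i => by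
    rw [Submodule.mkQ_apply]; exact ha i
  have h1 := congrArg (Submodule.torsion ℤ A).mkQ hz
  rw [map_sub, map_add, map_add, map_sum, map_sum, map_smul, map_smul, map_smul, hmkg, smul_zero,
    smul_zero, add_zero, add_zero] at h1
  simp only [map_smul, hmk] at h1
  rw [← Finset.sum_sub_distrib] at h1
  simp only [← sub_smul] at h1
  have h2 : ∀ i, (((n i : Fin p) : ℕ) : ℤ) - (((n' i : Fin p) : ℕ) : ℤ) =
      p * b.repr ((Submodule.torsion ℤ A).mkQ z) i := by
    intro i
    have h3 := congrArg (fun x => b.repr x i) h1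
    rw [b.repr_sum_self, map_smul, Finsupp.smul_apply, smul_eq_mul] at h3
    exact h3
  have h3 : ∀ i, n i = n' i := by
    intro i
    have h4 := h2 i
    have h5 : ((n i : Fin p) : ℕ) < p := (n i).2
    have h6 : ((n' i : Fin p) : ℕ) < p := (n' i).2
    apply Fin.ext
    have h7 : (p : ℤ) ∣ (((n i : Fin p) : ℕ) : ℤ) - (((n' i : Fin p) : ℕ) : ℤ) := ⟨_, h4⟩
    have h8 := Int.eq_zero_of_abs_lt_dvd h7 (by rw [abs_lt]; constructor <;> omega)
    omega
  have hnn : n = n' := funext h3
  have hzT : z ∈ Submodule.torsion ℤ A := by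
    rw [← Submodule.Quotient.mk_eq_zero, ← Submodule.mkQ_apply]
    apply b.repr.injective
    rw [map_zero]
    ext i
    have h4 := h2 i
    rw [h3 i, sub_self] at h4
    rcases mul_eq_zero.1 h4.symm with h5 | h5
    · exact absurd h5 hp0
    · rw [h5]; rfl
  subst hnn
  have hz2 : ((((m : Fin p) : ℕ) : ℤ) - (((m' : Fin p) : ℕ) : ℤ)) • g = (p : ℤ) • z := by
    rw [← hz, sub_smul]
    abel
  by_cases hm : m = m'
  · rw [hm]
  · exfalso
    apply hg
    have hcop : IsCoprime ((((m : Fin p) : ℕ) : ℤ) - (((m' : Fin p) : ℕ) : ℤ)) (p : ℤ) := by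
      refine ((Nat.prime_iff_prime_int.1 hp.out).coprime_iff_not_dvd.2 ?_).symm
      intro hd
      have h5 : ((m : Fin p) : ℕ) < p := m.2
      have h6 : ((m' : Fin p) : ℕ) < p := m'.2
      have h8 := Int.eq_zero_of_abs_lt_dvd hd (by rw [abs_lt]; constructor <;> omega)
      apply hm
      apply Fin.ext
      omega
    obtain ⟨u, v, huv⟩ := hcop
    refine ⟨u • z + v • g, Submodule.add_mem _ (Submodule.smul_mem _ _ hzT)
      (Submodule.smul_mem _ _ hgT), ?_⟩
    rw [smul_add, smul_comm (p : ℤ) u z, ← hz2, smul_smul, smul_smul, ← add_smul]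
    have h9 : u * ((((m : Fin p) : ℕ) : ℤ) - (((m' : Fin p) : ℕ) : ℤ)) + (p : ℤ) * v = 1 := by
      rw [mul_comm (p : ℤ) v]; exact huv
    rw [h9, one_smul]

theorem x_unl (h1 : Pool.Agent.Helper76.PB.X_RKS) : Pool.Agent.Helper76.PB.X_UNL := by
  classical
  intro p hp F _ _ ε hε Z hZ
  obtain ⟨hfin, hrk⟩ := h1 F Z hZ
  have hval : ∀ (v : HeightOneSpectrum (𝓞 F)) (x : F), v.valuation F x ^ p = 1 →
      v.valuation F x = 1 := fun v x h => 
    (pow_left_inj₀ zero_le zero_le hp.out.ne_zero).1 (by rw [h, one_pow])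
  have hε0 : ε ≠ 0 := hε.ne_zero hp.out.ne_zero
  let e : Fˣ := Units.mk0 ε hε0
  have hep : e ^ p = 1 := by
    ext
    show (ε : F) ^ p = 1
    exact hε.pow_eq_one
  have heZ : e ∈ Z.unit F := by
    intro v _
    apply hval
    rw [← map_pow]
    show v.valuation F (ε ^ p) = 1
    rw [hε.pow_eq_one, map_one]
  have he1 : e ≠ 1 := by
    intro h
    have h2 : ε = 1 := congrArg Units.val h
    exact hε.ne_one hp.out.one_lt h2
  obtain ⟨w, hw⟩ := fg_family p (Additive (Z.unit F)) (Additive.ofMul ⟨e, heZ⟩)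
    (by
      rw [natCast_zsmul, ← ofMul_pow]
      apply Additive.toMul.injective
      apply Subtype.ext
      exact hep)
    (by
      intro h
      apply he1
      have h2 := congrArg (fun x => ((Additive.toMul x : Z.unit F) : Fˣ)) h
      exact h2)
  let φ : (Fin (finrank ℤ (Additive (Z.unit F))) → Fin p) × Fin p → Fˣ :=
    fun s => ((Additive.toMul (w s) : Z.unit F) : Fˣ)
  have key : ∀ s s', Pw p (φ s / φ s') → s = s' := by
    rintro s s' ⟨z, hz⟩
    have hzZ : z ∈ Z.unit F := by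
      intro v hv
      apply hval
      have h2 : v.valuation F ((φ s / φ s' : Fˣ) : F) = 1 :=
        ((Z.unit F).div_mem (Additive.toMul (w s)).2 (Additive.toMul (w s')).2) v hv
      rw [hz] at h2
      rw [← map_pow]
      exact h2
    apply hw
    refine ⟨Additive.ofMul ⟨z, hzZ⟩, ?_⟩
    rw [natCast_zsmul, ← ofMul_pow]
    apply Additive.toMul.injective
    apply Subtype.ext
    exact hz
  have hinj : Function.Injective φ := by
    intro s s' h
    apply key
    refine ⟨1, ?_⟩
    rw [h, div_self', one_pow]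
  refine ⟨Finset.univ.image φ, ?_, ?_, ?_⟩
  · rw [Finset.card_image_of_injective _ hinj, Finset.card_univ, Fintype.card_prod,
      Fintype.card_fun, Fintype.card_fin, Fintype.card_fin, hrk, ← pow_succ]
    congr 1
    omega
  · intro x hx
    obtain ⟨s, -, rfl⟩ := Finset.mem_image.1 hx
    exact (Additive.toMul (w s)).2
  · intro x hx y hy hxy hpw
    obtain ⟨s, -, rfl⟩ := Finset.mem_image.1 hx
    obtain ⟨s', -, rfl⟩ := Finset.mem_image.1 hy
    exact hxy (by rw [key s s' hpw])

end Pool.Agent.Helper56.PB
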